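import Mathlib

/-!
# Outer-connected domination of line graphs and middle graphs

Two copies of `K_{m,m}` joined by a path with three edges: the outer-connected domination number
of the middle graph is at most the order `4m + 2`, that of the line graph is at least `m ^ 2`.
-/

set_option autoImplicit false

namespace Pool.Agent.Results.MP_9a7beb_co.BipartiteDumbbells

/-- The line graph `L(G)`: distinct edges are adjacent when they share an endpoint. -/
def lineGraph {V : Type*} (G : SimpleGraph V) : SimpleGraph G.edgeSet where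
  Adj e f := e ≠ f ∧ ∃ v, v ∈ e.1 ∧ v ∈ f.1
  symm := ⟨fun _ _ h => ⟨h.1.symm, h.2.imp fun _ hv => ⟨hv.2, hv.1⟩⟩⟩
  loopless := ⟨fun _ h => h.1 rfl⟩

/-- The middle graph `M(G)`: vertices are the vertices and the edges of `G`; two edges are adjacent
when they are distinct and share an endpoint, a vertex and an edge are adjacent when they are
incident, and two vertices are never adjacent. -/
def middleGraph {V : Type*} (G : SimpleGraph V) : SimpleGraph (V ⊕ G.edgeSet) where
  Adj
    | Sum.inl _, Sum.inl _ => False
    | Sum.inl v, Sum.inr e => v ∈ e.1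
    | Sum.inr e, Sum.inl v => v ∈ e.1
    | Sum.inr e, Sum.inr f => e ≠ f ∧ ∃ v, v ∈ e.1 ∧ v ∈ f.1
  symm := ⟨by
    rintro (u | e) (v | f) h
    · exact h
    · exact h
    · exact h
    · exact ⟨h.1.symm, h.2.imp fun _ hv => ⟨hv.2, hv.1⟩⟩⟩
  loopless := ⟨by
    rintro (u | e) h
    · exact h
    · exact h.1 rfl⟩

/-- `D` is an outer-connected dominating set of `H`: every vertex outside `D` has a neighbour in
`D`, and the subgraph induced by the vertices outside `D` is connected (the graph without vertices
counts as connected). -/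
def IsOuterConnectedDominating {W : Type*} (H : SimpleGraph W) (D : Finset W) : Prop :=
  (∀ v, v ∉ D → ∃ u ∈ D, H.Adj v u) ∧ (H.induce {v : W | v ∉ D}).Preconnected

/-- The outer-connected domination number. -/
noncomputable def outerConnDomNum {W : Type*} (H : SimpleGraph W) : ℕ :=
  sInf {m | ∃ D : Finset W, IsOuterConnectedDominating H D ∧ D.card = m}

/-! ### General lemmas -/

lemma closure_of_preconnected {W : Type*} (H : SimpleGraph W) (X : Set W)
    (hc : (H.induce X).Preconnected) (x₀ : W) (hx₀ : x₀ ∈ X) (Y : Set W) (h0 : x₀ ∈ Y)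
    (hcl : ∀ y ∈ X, y ∈ Y → ∀ z ∈ X, H.Adj y z → z ∈ Y) : X ⊆ Y := by
  intro x hx
  obtain ⟨w⟩ := hc ⟨x₀, hx₀⟩ ⟨x, hx⟩
  have key : ∀ (a b : X), (H.induce X).Walk a b → a.1 ∈ Y → b.1 ∈ Y := by
    intro a b p
    induction p with
    | nil => exact fun h => h
    | @cons a c b hadj _ ih =>
      intro ha
      exact ih (hcl a.1 a.2 ha c.1 c.2 hadj)
  exact key _ _ w h0

/-- The middle graph has outer-connected domination number at most the order. -/
lemma middle_le {V : Type*} [Fintype V] (G : SimpleGraph V) (hG : G.Connected) :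
    outerConnDomNum (middleGraph G) ≤ Fintype.card V := by
  classical
  let D : Finset (V ⊕ G.edgeSet) := Finset.univ.map Function.Embedding.inl
  have hD : ∀ x, x ∈ D ↔ ∃ v, x = Sum.inl v := by
    intro x
    rw [Finset.mem_map]
    exact ⟨fun ⟨v, _, h⟩ => ⟨v, h.symm⟩, fun ⟨v, h⟩ => ⟨v, Finset.mem_univ v, h.symm⟩⟩
  have hnot : ∀ e : G.edgeSet, (Sum.inr e : V ⊕ G.edgeSet) ∉ D := by
    intro e h
    obtain ⟨v, hv⟩ := (hD _).1 h
    exact absurd hv (by simp)
  have hcard : D.card = Fintype.card V := by
    rw [Finset.card_map, Finset.card_univ]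
  rw [← hcard]
  refine Nat.sInf_le ⟨D, ⟨?_, ?_⟩, rfl⟩
  · rintro (v | ⟨e, he⟩) hx
    · exact absurd ((hD _).2 ⟨v, rfl⟩) hx
    · induction e using Sym2.ind with
      | _ a b =>
        exact ⟨Sum.inl a, (hD _).2 ⟨a, rfl⟩, Sym2.mem_mk_left a b⟩
  · set H := (middleGraph G).induce {v | v ∉ D} with hH
    rintro ⟨x, hx⟩ ⟨y, hy⟩
    rcases x with x | e
    · exact absurd ((hD _).2 ⟨x, rfl⟩) hx
    rcases y with y | f
    · exact absurd ((hD _).2 ⟨y, rfl⟩) hy
    have key : ∀ (g h : G.edgeSet) (v : V), v ∈ g.1 → v ∈ h.1 →
        H.Reachable ⟨Sum.inr e, hx⟩ ⟨Sum.inr g, hnot g⟩ →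
        H.Reachable ⟨Sum.inr e, hx⟩ ⟨Sum.inr h, hnot h⟩ := by
      intro g h v hg hh hr
      by_cases hgh : g = h
      · subst hgh; exact hr
      · refine hr.trans (SimpleGraph.Adj.reachable ?_)
        exact ⟨hgh, v, hg, hh⟩
    have hS : ∀ v : V, ∀ g : G.edgeSet, v ∈ g.1 →
        H.Reachable ⟨Sum.inr e, hx⟩ ⟨Sum.inr g, hnot g⟩ := by
      obtain ⟨a, ha⟩ : ∃ a, a ∈ e.1 := by
        obtain ⟨e, he⟩ := e
        induction e using Sym2.ind with
        | _ a b => exact ⟨a, Sym2.mem_mk_left a b⟩
      intro v
      obtain ⟨w⟩ := hG.preconnected a v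
      have : ∀ (u v : V), G.Walk u v → (∀ g : G.edgeSet, u ∈ g.1 →
          H.Reachable ⟨Sum.inr e, hx⟩ ⟨Sum.inr g, hnot g⟩) → ∀ g : G.edgeSet, v ∈ g.1 →
          H.Reachable ⟨Sum.inr e, hx⟩ ⟨Sum.inr g, hnot g⟩ := by
        intro u v p
        induction p with
        | nil => exact fun h => h
        | @cons u c v hadj _ ih =>
          intro hu
          refine ih ?_
          intro g hg
          have h1 := hu ⟨s(u, c), hadj⟩ (Sym2.mem_mk_left u c)
          exact key ⟨s(u, c), hadj⟩ g c (Sym2.mem_mk_right u c) hg h1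
      exact this a v w (fun g hg => key e g a ha hg (SimpleGraph.Reachable.refl _))
    obtain ⟨b, hb⟩ : ∃ b, b ∈ f.1 := by
      obtain ⟨f, hf⟩ := f
      induction f using Sym2.ind with
      | _ a b => exact ⟨a, Sym2.mem_mk_left a b⟩
    exact hS b f hb

/-! ### The graphs -/

/-- Vertices: `(s, none)` are the two inner path vertices, `(s, some (inl i))` and
`(s, some (inr j))` the two sides of the copy of `K_{m,m}` with label `s`. -/
abbrev V (m : ℕ) : Type := Bool × Option (Fin m ⊕ Fin m)

/-- Adjacency inside one half. -/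
def adjB {m : ℕ} : Option (Fin m ⊕ Fin m) → Option (Fin m ⊕ Fin m) → Prop
  | none, some (Sum.inl i) => i.val = 0
  | some (Sum.inl i), none => i.val = 0
  | some (Sum.inl _), some (Sum.inr _) => True
  | some (Sum.inr _), some (Sum.inl _) => True
  | _, _ => False

lemma adjB_symm {m : ℕ} (x y : Option (Fin m ⊕ Fin m)) (h : adjB x y) : adjB y x := by
  rcases x with _ | x | x <;> rcases y with _ | y | y <;> exact h

lemma adjB_irrefl {m : ℕ} (x : Option (Fin m ⊕ Fin m)) : ¬ adjB x x := by
  rcases x with _ | x | x <;> exact fun h => h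

/-- Two copies of `K_{m,m}` joined by a path with three edges. -/
def G (m : ℕ) : SimpleGraph (V m) where
  Adj p q := (p.1 = q.1 ∧ adjB p.2 q.2) ∨ (p.1 ≠ q.1 ∧ p.2 = none ∧ q.2 = none)
  symm := ⟨by
    rintro p q (⟨h1, h2⟩ | ⟨h1, h2, h3⟩)
    · exact Or.inl ⟨h1.symm, adjB_symm _ _ h2⟩
    · exact Or.inr ⟨h1.symm, h3, h2⟩⟩
  loopless := ⟨by
    rintro p (⟨_, h2⟩ | ⟨h1, _⟩)
    · exact adjB_irrefl _ h2
    · exact h1 rfl⟩

lemma blockAdj (m : ℕ) (s : Bool) (i j : Fin m) :
    (G m).Adj (s, some (Sum.inl i)) (s, some (Sum.inr j)) := Or.inl ⟨rfl, trivial⟩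

/-- The edges of the block `s`. -/
def block (m : ℕ) (s : Bool) (p : Fin m × Fin m) : (G m).edgeSet :=
  ⟨s((s, some (Sum.inl p.1)), (s, some (Sum.inr p.2))), blockAdj m s p.1 p.2⟩

lemma block_injective (m : ℕ) (s : Bool) : Function.Injective (block m s) := by
  rintro ⟨i, j⟩ ⟨i', j'⟩ h
  have h1 := congrArg Subtype.val h
  simp only [block, Sym2.eq_iff, Prod.mk.injEq, Option.some.injEq, Sum.inl.injEq, Sum.inr.injEq,
    true_and] at h1
  rcases h1 with ⟨h1, h2⟩ | ⟨h1, _⟩
  · rw [h1, h2]
  · exact absurd h1 (by simp)

lemma midAdj (m : ℕ) : (G m).Adj (false, none) (true, none) := Or.inr ⟨by simp, rfl, rfl⟩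

/-- The middle edge of the path. -/
def mid (m : ℕ) : (G m).edgeSet := ⟨s((false, none), (true, none)), midAdj m⟩

lemma G_connected (m : ℕ) (hm : 0 < m) : (G m).Connected := by
  have h0 : ∀ s : Bool, (G m).Adj (s, some (Sum.inl ⟨0, hm⟩)) (s, none) :=
    fun s => Or.inl ⟨rfl, rfl⟩
  have hr : ∀ (s : Bool) (x : Option (Fin m ⊕ Fin m)), (G m).Reachable (s, none) (s, x) := by
    intro s x
    have h1 : ∀ j, (G m).Reachable (s, none) (s, some (Sum.inr j)) := fun j =>
      (h0 s).symm.reachable.trans (blockAdj m s ⟨0, hm⟩ j).reachable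
    rcases x with _ | i | j
    · exact SimpleGraph.Reachable.refl _
    · exact (h1 ⟨0, hm⟩).trans (blockAdj m s i ⟨0, hm⟩).symm.reachable
    · exact h1 j
  rw [SimpleGraph.connected_iff_exists_forall_reachable]
  refine ⟨(false, none), ?_⟩
  rintro ⟨s, x⟩
  cases s
  · exact hr false x
  · exact (midAdj m).reachable.trans (hr true x)

/-- An edge touching the block `s` with its vertex `(s, some z)`: its other end is in the same half. -/
lemma touch (m : ℕ) (s : Bool) (z : Fin m ⊕ Fin m) (e : (G m).edgeSet)
    (h : (s, some z) ∈ e.1) : ∀ v ∈ e.1, v.1 = s := by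
  obtain ⟨e, he⟩ := e
  intro v hv
  induction e using Sym2.ind with
  | _ a b =>
    have hadj : (G m).Adj a b := he
    have hab : a.1 = b.1 := by
      rcases hadj with ⟨h1, _⟩ | ⟨_, h2, h3⟩
      · exact h1
      · rcases Sym2.mem_iff.1 h with h | h
        · rw [← h] at h2; exact absurd h2 (by simp)
        · rw [← h] at h3; exact absurd h3 (by simp)
    rcases Sym2.mem_iff.1 h with h | h <;> rcases Sym2.mem_iff.1 hv with hv | hv
    · rw [hv, ← h]
    · rw [hv, ← hab, ← h]
    · rw [hv, hab, ← h]
    · rw [hv, ← h]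

/-- Either the block `s` is entirely in `F`, or the other one is. -/
lemma dichotomy (m : ℕ) (F : Finset (G m).edgeSet)
    (hF : IsOuterConnectedDominating (lineGraph (G m)) F) :
    ∃ s, ∀ p, block m s p ∈ F := by
  obtain ⟨hd, hc⟩ := hF
  by_contra hcon
  push Not at hcon
  obtain ⟨p, hp⟩ := hcon false
  obtain ⟨q, hq⟩ := hcon true
  by_cases hmid : mid m ∈ F
  · -- the edges touching the first block are closed
    have := closure_of_preconnected (lineGraph (G m)) {e | e ∉ F} hc (block m false p) hp
      {e | ∃ z, (false, some z) ∈ e.1} ⟨Sum.inl p.1, Sym2.mem_mk_left _ _⟩ ?_ hq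
    · obtain ⟨z, hz⟩ := this
      have := touch m false z _ hz _ (Sym2.mem_mk_left _ _)
      exact absurd this (by simp)
    · rintro e _ ⟨z, hz⟩ f hf ⟨_, v, hve, hvf⟩
      have h1 : v.1 = false := touch m false z e hz v hve
      obtain ⟨vs, vx⟩ := v
      simp only at h1
      subst h1
      rcases vx with _ | z'
      · -- `f` contains `(false, none)` and is not `mid`
        obtain ⟨f, hfe⟩ := f
        induction f using Sym2.ind with
        | _ a b =>
          have hadj : (G m).Adj a b := hfe
          have aux : ∀ c : V m, (G m).Adj (false, none) c → c ≠ (true, none) →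
              ∃ z, c = (false, some z) := by
            rintro ⟨cs, cx⟩ hc1 hne
            rcases hc1 with ⟨h1, h2⟩ | ⟨h1, _, h3⟩
            · simp only at h1 h2
              subst h1
              rcases cx with _ | z
              · exact absurd h2 (fun h => h)
              · exact ⟨z, rfl⟩
            · simp only at h1 h3
              subst h3
              cases cs
              · exact absurd rfl h1
              · exact absurd rfl hne
          rcases Sym2.mem_iff.1 hvf with h | h
          · have hbt : b ≠ (true, none) := by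
              intro hb
              apply hf
              have : (⟨s(a, b), hfe⟩ : (G m).edgeSet) = mid m := Subtype.ext (by
                simp only [mid]; rw [← h, hb])
              rw [this]; exact hmid
            obtain ⟨z, hz⟩ := aux b (by rw [h]; exact hadj) hbt
            exact ⟨z, by rw [← hz]; exact Sym2.mem_mk_right a b⟩
          · have hbt : a ≠ (true, none) := by
              intro hb
              apply hf
              have : (⟨s(a, b), hfe⟩ : (G m).edgeSet) = mid m := Subtype.ext (by
                simp only [mid]; rw [← h, hb, Sym2.eq_swap])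
              rw [this]; exact hmid
            obtain ⟨z, hz⟩ := aux a (by rw [h]; exact hadj.symm) hbt
            exact ⟨z, by rw [← hz]; exact Sym2.mem_mk_left a b⟩
      · exact ⟨z', hvf⟩
  · -- `mid` is dominated by an edge `f = e_s`
    obtain ⟨f, hf, hne, v, hv1, hv2⟩ := hd (mid m) hmid
    have hvn : v.2 = none := by
      rcases Sym2.mem_iff.1 hv1 with h | h <;> rw [h]
    obtain ⟨s, vx⟩ := v
    simp only at hvn
    subst hvn
    -- the only edges at `(s, none)` are `mid` and `f`
    have huniq : ∀ g : (G m).edgeSet, (s, none) ∈ g.1 → g = mid m ∨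
        g.1 = s((s, none), (s, some (Sum.inl ⟨0, by have := p.1.2; omega⟩))) := by
      rintro ⟨g, hg⟩ hsg
      have aux : ∀ c : V m, (G m).Adj (s, none) c → c = (!s, none) ∨
          c = (s, some (Sum.inl ⟨0, by have := p.1.2; omega⟩)) := by
        rintro ⟨cs, cx⟩ hc1
        rcases hc1 with ⟨h1, h2⟩ | ⟨h1, _, h3⟩
        · simp only at h1 h2
          subst h1
          rcases cx with _ | z | z
          · exact absurd h2 (fun h => h)
          · right
            have : z = ⟨0, by have := p.1.2; omega⟩ := Fin.ext h2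
            rw [this]
          · exact absurd h2 (fun h => h)
        · simp only at h1 h3
          subst h3
          left
          cases s <;> cases cs <;> simp_all
      have fin : ∀ c : V m, (hc : (G m).Adj (s, none) c) → g = s((s, none), c) →
          (⟨g, hg⟩ : (G m).edgeSet) = mid m ∨
          g = s((s, none), (s, some (Sum.inl ⟨0, by have := p.1.2; omega⟩))) := by
        intro c hc hgc
        rcases aux c hc with h | h
        · left
          apply Subtype.ext
          simp only [mid]
          rw [hgc, h]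
          cases s
          · rfl
          · exact Sym2.eq_swap
        · right
          rw [hgc, h]
      induction g using Sym2.ind with
      | _ a b =>
        have hadj : (G m).Adj a b := hg
        rcases Sym2.mem_iff.1 hsg with h | h
        · exact fin b (by rw [h]; exact hadj) (by rw [h])
        · exact fin a (by rw [h]; exact hadj.symm) (by rw [h, Sym2.eq_swap])
    have hfs : f.1 = s((s, none), (s, some (Sum.inl ⟨0, by have := p.1.2; omega⟩))) :=
      (huniq f hv2).resolve_left (fun h => hne h.symm)
    obtain ⟨r, hr⟩ := hcon s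
    obtain ⟨r', hr'⟩ := hcon (!s)
    have := closure_of_preconnected (lineGraph (G m)) {e | e ∉ F} hc (block m s r) hr
      {e | ∀ v ∈ e.1, ∃ z, v = (s, some z)} ?_ ?_ hr'
    · obtain ⟨z, hz⟩ := this _ (Sym2.mem_mk_left _ _)
      have := congrArg Prod.fst hz
      simp only at this
      cases s <;> simp at this
    · intro v hv
      rcases Sym2.mem_iff.1 hv with h | h
      · exact ⟨_, h⟩
      · exact ⟨_, h⟩
    · rintro e _ he g hg ⟨_, v, hve, hvg⟩
      obtain ⟨z, rfl⟩ := he v hve
      intro u hu
      have h1 : u.1 = s := touch m s z g hvg u hu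
      obtain ⟨us, ux⟩ := u
      simp only at h1
      subst h1
      rcases ux with _ | z'
      · exfalso
        rcases huniq g hu with h | h
        · rw [h] at hvg
          rcases Sym2.mem_iff.1 hvg with h | h <;> simp at h
        · apply hg
          have : g = f := Subtype.ext (h.trans hfs.symm)
          rw [this]; exact hf
      · exact ⟨z', rfl⟩

lemma line_lower (m : ℕ) (F : Finset (G m).edgeSet)
    (hF : IsOuterConnectedDominating (lineGraph (G m)) F) : m * m ≤ F.card := by
  classical
  obtain ⟨s, hs⟩ := dichotomy m F hF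
  have h1 : (Finset.univ.image (block m s)).card = m * m := by
    rw [Finset.card_image_of_injective _ (block_injective m s), Finset.card_univ,
      Fintype.card_prod, Fintype.card_fin]
  rw [← h1]
  apply Finset.card_le_card
  intro e he
  obtain ⟨p, _, rfl⟩ := Finset.mem_image.1 he
  exact hs p

lemma line_num (m : ℕ) : m * m ≤ outerConnDomNum (lineGraph (G m)) := by
  classical
  have hne : {k | ∃ D : Finset (G m).edgeSet,
      IsOuterConnectedDominating (lineGraph (G m)) D ∧ D.card = k}.Nonempty := by
    have : Fintype (G m).edgeSet := Fintype.ofFinite _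
    refine ⟨_, Finset.univ, ⟨fun v hv => absurd (Finset.mem_univ v) hv, ?_⟩, rfl⟩
    rintro ⟨x, hx⟩
    exact absurd (Finset.mem_univ x) hx
  obtain ⟨F, hF, hc⟩ := Nat.sInf_mem hne
  unfold outerConnDomNum
  rw [← hc]
  exact line_lower m F hF

/-- **Theorem.** For every `K` there is a finite connected graph of order at least two for which
the outer-connected domination number of the line graph exceeds that of the middle graph by at
least `K`. -/
theorem result (K : ℕ) : ∃ (V : Type) (_ : Fintype V) (G : SimpleGraph V), G.Connected ∧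
    2 ≤ Fintype.card V ∧
    outerConnDomNum (middleGraph G) + K ≤ outerConnDomNum (lineGraph G) := by
  have hcard : Fintype.card (V (K + 6)) = 4 * (K + 6) + 2 := by
    simp only [V, Fintype.card_prod, Fintype.card_bool, Fintype.card_option, Fintype.card_sum,
      Fintype.card_fin]
    ring
  refine ⟨V (K + 6), inferInstance, G (K + 6), G_connected _ (by omega), by omega, ?_⟩
  have h1 := middle_le (G (K + 6)) (G_connected _ (by omega))
  have h2 := line_num (K + 6)
  rw [hcard] at h1
  nlinarith

end Pool.Agent.Results.MP_9a7beb_co.BipartiteDumbbells
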